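import Pool.Agent.KF.E.Final
import Pool.Agent.KF.T.WU
import Pool.Agent.KF.S.Main
import Pool.Agent.LFC.Core

/-!
MP_716236_co: the inequality `f_k ≤ (k+2) f_{k+1}` for all polytopes of dimension `2k+1`.
-/

set_option autoImplicit false

namespace Pool.Agent.KF

/-- For every pointed family of rank `2k+2` (every polytope of dimension `2k+1`) the number of
faces of rank `k+1` is at most `k+2` times the number of faces of rank `k+2`. -/
theorem wu_all : E.WU :=
  T.wu S.shr S.s_FACE S.s_EX S.s_DETW S.s_PDS K.K_final

end Pool.Agent.KF
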